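import Pool.Agent.H654R5.PT.Stm

/-!
# Orthogonality of the Hadamard codewords (task HAD)
-/

set_option autoImplicit false

namespace Pool.Agent.H654R5.PT.HAD

open Pool.Agent.H654R5.PT

theorem dot_nil (u : ℕ) : dot u [] = false := rfl

theorem dot_cons (u : ℕ) (b : Bool) (s : List Bool) :
    dot u (b :: s) = xor (u.testBit 0 && b) (dot (u / 2) s) := by
  unfold dot
  rw [List.length_cons, List.range_succ_eq_map, List.foldr_cons, List.foldr_map]
  simp only [List.getD_cons_zero, Nat.succ_eq_add_one, List.getD_cons_succ, Nat.testBit_succ]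

theorem sg_xor (a b : Bool) : sg (xor a b) = sg a * sg b := by
  cases a <;> cases b <;> simp [sg]

theorem sum_strs (h : S_STR) (k : ℕ) (f : List Bool → ℤ) :
    ∑ l ∈ strs k, f l = ((allStr k).map f).sum := by
  unfold strs
  exact List.sum_toFinset f (h.2.1 k)

theorem sum_succ (h : S_STR) (k : ℕ) (f : List Bool → ℤ) :
    ∑ l ∈ strs (k + 1), f l = ∑ l ∈ strs k, (f (false :: l) + f (true :: l)) := by
  rw [sum_strs h, sum_strs h]
  have : ∀ L : List (List Bool), ((L.flatMap (fun s => [false :: s, true :: s])).map f).sum =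
      (L.map (fun l => f (false :: l) + f (true :: l))).sum := by
    intro L
    induction L with
    | nil => rfl
    | cons a L ih =>
      rw [List.flatMap_cons, List.map_append, List.sum_append, ih]
      simp
  exact this _

theorem orth (h : S_STR) : ∀ (k u v : ℕ), u < 2 ^ k → v < 2 ^ k →
    ∑ l ∈ strs k, sg (dot u l) * sg (dot v l) = if u = v then 2 ^ k else 0 := by
  intro k
  induction k with
  | zero =>
    intro u v hu hv
    have h1 : u = 0 := by simpa using hu
    have h2 : v = 0 := by simpa using hv
    subst h1 h2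
    rw [sum_strs h]
    simp [allStr, dot_nil, sg]
  | succ k ih =>
    intro u v hu hv
    rw [sum_succ h]
    have h1 : ∀ l ∈ strs k, sg (dot u (false :: l)) * sg (dot v (false :: l)) +
        sg (dot u (true :: l)) * sg (dot v (true :: l)) =
        (1 + sg (u.testBit 0) * sg (v.testBit 0)) * (sg (dot (u / 2) l) * sg (dot (v / 2) l)) := by
      intro l _
      simp only [dot_cons, sg_xor, Bool.and_false, Bool.and_true]
      have : sg false = 1 := rfl
      rw [this]
      ring
    rw [Finset.sum_congr rfl h1, ← Finset.mul_sum, ih (u / 2) (v / 2) (by omega) (by omega)]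
    have hu0 : u.testBit 0 = decide (u % 2 = 1) := Nat.testBit_zero u
    have hv0 : v.testBit 0 = decide (v % 2 = 1) := Nat.testBit_zero v
    rw [hu0, hv0]
    rcases Nat.mod_two_eq_zero_or_one u with hu1 | hu1 <;>
      rcases Nat.mod_two_eq_zero_or_one v with hv1 | hv1
    · have e : (u = v) ↔ (u / 2 = v / 2) := by omega
      by_cases huv : u = v
      · rw [if_pos huv, if_pos (e.1 huv)]
        simp [hu1, hv1, sg]
        ring
      · rw [if_neg huv, if_neg (fun h => huv (e.2 h)), mul_zero]
    · have e : u ≠ v := by omega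
      rw [if_neg e]
      simp [hu1, hv1, sg]
    · have e : u ≠ v := by omega
      rw [if_neg e]
      simp [hu1, hv1, sg]
    · have e : (u = v) ↔ (u / 2 = v / 2) := by omega
      by_cases huv : u = v
      · rw [if_pos huv, if_pos (e.1 huv)]
        simp [hu1, hv1, sg]
        ring
      · rw [if_neg huv, if_neg (fun h => huv (e.2 h)), mul_zero]

theorem dot_zero (l : List Bool) : dot 0 l = false := by
  induction l with
  | nil => rfl
  | cons b l ih =>
    rw [dot_cons]
    simpa using ih

theorem sum_sg (h : S_STR) (k u : ℕ) (hu : u < 2 ^ k) :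
    ∑ l ∈ strs k, sg (dot u l) = if u = 0 then 2 ^ k else 0 := by
  have := orth h k u 0 hu (by positivity)
  simpa [dot_zero, sg] using this

theorem HAD_proof (h : S_STR) : S_HAD := by
  intro k u v hu hv
  have hcard : ∑ _l ∈ strs k, (1 : ℤ) = 2 ^ k := by
    rw [Finset.sum_const, nsmul_eq_mul, mul_one, h.2.2.2.2 k]
    push_cast
    rfl
  refine ⟨fun huv => ?_, fun hu0 => ?_, fun hu0 huv => ?_⟩
  · rw [orth h k u v hu hv, if_neg huv]
  · have h1 := sum_sg h k u hu
    rw [if_neg hu0] at h1
    have h2 : (2 * ((strs k).filter (fun l => dot u l = true)).card : ℤ) =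
        ∑ _l ∈ strs k, (1 : ℤ) - ∑ l ∈ strs k, sg (dot u l) := by
      rw [Finset.card_filter, ← Finset.sum_sub_distrib]
      push_cast
      rw [Finset.mul_sum]
      refine Finset.sum_congr rfl fun l _ => ?_
      cases dot u l <;> simp [sg]
    rw [hcard, h1, sub_zero] at h2
    exact_mod_cast h2
  · have h1 := sum_sg h k u hu
    rw [if_neg hu0] at h1
    have h3 := orth h k u v hu hv
    rw [if_neg huv] at h3
    have h4 : (0 : ℤ) ≤ ∑ l ∈ strs k, sg (dot v l) := by
      rw [sum_sg h k v hv]
      split_ifs <;> positivity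
    have h2 : (4 * ((strs k).filter (fun l => dot u l = true ∧ dot v l = false)).card : ℤ) =
        ∑ _l ∈ strs k, (1 : ℤ) - ∑ l ∈ strs k, sg (dot u l) + ∑ l ∈ strs k, sg (dot v l) -
          ∑ l ∈ strs k, sg (dot u l) * sg (dot v l) := by
      rw [Finset.card_filter, ← Finset.sum_sub_distrib, ← Finset.sum_add_distrib,
        ← Finset.sum_sub_distrib]
      push_cast
      rw [Finset.mul_sum]
      refine Finset.sum_congr rfl fun l _ => ?_
      cases dot u l <;> cases dot v l <;> simp [sg]
    rw [hcard, h1, h3] at h2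
    have h5 : (2 ^ k : ℤ) ≤ 4 * ((strs k).filter (fun l => dot u l = true ∧ dot v l = false)).card := by
      linarith
    exact_mod_cast h5

end Pool.Agent.H654R5.PT.HAD
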